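import Mathlib

/-!
# MP_f8e877_nt: the conjunction of the congruences (a), (b), (c), as posed, is false

Congruence (c), with the factor `B_k = C(2k,k)^2` as posed, already fails for the prime `p = 11`
(even modulo `p`).
-/

set_option autoImplicit false

namespace Pool.Agent.Results.MP_f8e877_nt.FailsAtEleven

open Finset

/-- `T_n(b,c)`, the coefficient of `x^n` in `(x^2 + b x + c)^n`, given by
`∑_j C(n,2j) C(2j,j) b^(n-2j) c^j`. -/
def T (n : ℕ) (b c : ℤ) : ℤ :=
  ∑ j ∈ range (n / 2 + 1), (n.choose (2 * j) : ℤ) * ((2 * j).choose j : ℤ) * b ^ (n - 2 * j) * c ^ j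

/-- `A_k = C(2k,k) C(3k,k)`. -/
def A (k : ℕ) : ℚ := ((2 * k).choose k : ℚ) * ((3 * k).choose k : ℚ)

/-- `B_k = C(2k,k)^2`. -/
def B (k : ℕ) : ℚ := ((2 * k).choose k : ℚ) ^ 2

/-- `u_k = T_k(18,1) / 512^k`. -/
def u (k : ℕ) : ℚ := (T k 18 1 : ℚ) / 512 ^ k

/-- `v_k = T_{3k}(6,1) / (-512)^k`. -/
def v (k : ℕ) : ℚ := (T (3 * k) 6 1 : ℚ) / (-512) ^ k

/-- `S = ∑_{k<p} A_k u_k`. -/
def S (p : ℕ) : ℚ := ∑ k ∈ range p, A k * u k

/-- `S' = ∑_{k<p} A_k v_k`. -/
def S' (p : ℕ) : ℚ := ∑ k ∈ range p, A k * v k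

/-- Congruence modulo `p^2` in the ring of rationals with denominator prime to `p`:
`x - y = p^2 a / d` with integers `a`, `d`, where `p` does not divide `d`. -/
def CongSq (p : ℕ) (x y : ℚ) : Prop :=
  ∃ a d : ℤ, ¬ (p : ℤ) ∣ d ∧ (x - y) * d = (p : ℚ) ^ 2 * a

/-- The assertion (a). -/
def PartA (p : ℕ) [Fact p.Prime] : Prop :=
  CongSq p (S p) (legendreSym p 10 * S' p) ∧
  (jacobiSym p 5 = 1 → jacobiSym p 7 = 1 → ∀ x y : ℤ, 4 * (p : ℤ) = x ^ 2 + 35 * y ^ 2 →
    CongSq p (S p) (x ^ 2 - 2 * p)) ∧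
  (jacobiSym p 5 = -1 → jacobiSym p 7 = -1 → ∀ x y : ℤ, 4 * (p : ℤ) = 5 * x ^ 2 + 7 * y ^ 2 →
    CongSq p (S p) (2 * p - 5 * x ^ 2)) ∧
  (jacobiSym p 35 = -1 → CongSq p (S p) 0)

/-- The assertion (b). -/
def PartB (p : ℕ) : Prop :=
  CongSq p (∑ k ∈ range p, (35 * (k : ℚ) + 9) * A k * u k)
    (9 / 2 * p * (7 - 5 * (jacobiSym p 5 : ℚ)))

/-- The assertion (c), with the factor `B_k` as posed. -/
def PartC (p : ℕ) [Fact p.Prime] : Prop :=
  CongSq p (∑ k ∈ range p, (35 * (k : ℚ) + 9) * B k * v k)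
    (9 / 32 * p * (legendreSym p 2 : ℚ) * (25 + 7 * (jacobiSym p 7 : ℚ)))

instance : Fact (Nat.Prime 11) := ⟨by norm_num⟩

theorem leg : legendreSym 11 2 = -1 := by decide +kernel

theorem jac : jacobiSym 11 7 = 1 := by norm_num

theorem sum_eleven : ∑ k ∈ range 11, (35 * (k : ℚ) + 9) * B k * v k =
    8136330251912589547878136534135183665 / 4835703278458516698824704 := by
  simp only [sum_range_succ, range_zero, sum_empty, B, v, T]
  norm_num [Nat.choose]

/-- The congruence (c), as posed, fails for `p = 11`. -/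
theorem not_partC : ¬ PartC 11 := by
  rintro ⟨a, d, hd, h⟩
  have h1 : (8136330252391324172445529687318829361 * d : ℚ) =
      121 * a * 4835703278458516698824704 := by
    have hj : ((jacobiSym ((11 : ℕ) : ℤ) 7 : ℤ) : ℚ) = 1 := by
      have := jac
      exact_mod_cast this
    have hl : ((legendreSym 11 2 : ℤ) : ℚ) = -1 := by
      rw [leg]; norm_num
    rw [sum_eleven, hj, hl] at h
    push_cast at h
    linear_combination 4835703278458516698824704 * h
  have h2 : 8136330252391324172445529687318829361 * d = 121 * a * 4835703278458516698824704 := by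
    exact_mod_cast h1
  have h3 : (11 : ℤ) ∣ 8136330252391324172445529687318829361 * d :=
    ⟨11 * a * 4835703278458516698824704, by rw [h2]; ring⟩
  have hp : Prime (11 : ℤ) := by
    rw [← Nat.cast_ofNat, Nat.prime_iff_prime_int.symm]
    norm_num
  rcases hp.dvd_or_dvd h3 with h4 | h4
  · norm_num at h4
  · exact hd (by exact_mod_cast h4)

/-- There is a prime `p > 7`, namely `p = 11`, for which (c) fails; so not all primes `p > 7`
satisfy all of the congruences (a), (b), (c) as posed. -/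
theorem result : ∃ (p : ℕ) (_ : Fact p.Prime), 7 < p ∧ ¬ PartC p ∧
    ¬ (PartA p ∧ PartB p ∧ PartC p) :=
  ⟨11, inferInstance, by norm_num, not_partC, fun h => not_partC h.2.2⟩

end Pool.Agent.Results.MP_f8e877_nt.FailsAtEleven
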